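import Mathlib
import Pool.Agent.H.MP_4af00a_nt.A

namespace Pool.Agent.H.MP_fcf7f4_nt

open Finset Nat Pool.Agent.H.MP_4af00a_nt

def a (N j : ℕ) : ℚ := (N.choose (2 * j) : ℚ) * ((2 * j).choose j : ℚ) / 3 ^ j

lemma cb_succ (j : ℕ) : ((2 * (j + 1)).choose (j + 1) : ℚ) =
    ((2 * j).choose j : ℚ) * (2 * (2 * j + 1) / (j + 1)) := by
  have := Nat.succ_mul_centralBinom_succ j
  rw [Nat.centralBinom_eq_two_mul_choose, Nat.centralBinom_eq_two_mul_choose] at this
  have h : (((j + 1) * (2 * (j + 1)).choose (j + 1) : ℕ) : ℚ) =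
    ((2 * (2 * j + 1) * (2 * j).choose j : ℕ) : ℚ) := by rw [this]
  push_cast at h
  field_simp
  linear_combination h

lemma a_down (N j : ℕ) : a N j = a (N + 1) j * (((N : ℚ) + 1 - 2 * j) / (N + 1)) := by
  unfold a
  have := ch1 N (2 * j)
  push_cast at this
  field_simp
  linear_combination ((2 * j).choose j : ℚ) * this

lemma a_up (N j : ℕ) : a N (j + 1) = a N j * (((N : ℚ) - 2 * j) * (N - 2 * j - 1) / (3 * (j + 1) ^ 2)) := by
  unfold a
  have h2 := ch2 N (2 * j + 1)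
  have h3 := ch2 N (2 * j)
  push_cast at h2 h3
  have h : (N.choose (2 * j + 1 + 1) : ℚ) = (N.choose (2 * j) : ℚ) *
      (((N : ℚ) - 2 * j) * (N - 2 * j - 1) / ((2 * j + 1) * (2 * j + 2))) := by
    field_simp
    linear_combination (2 * (j : ℚ) + 1) * h2 + ((N : ℚ) - 2 * j - 1) * h3
  rw [cb_succ, show 2 * (j + 1) = 2 * j + 1 + 1 by ring, h]
  field_simp
  ring

lemma a_zero (N j : ℕ) (h : N < 2 * j) : a N j = 0 := by
  unfold a; rw [Nat.choose_eq_zero_of_lt h]; simp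

def E (N : ℕ) : ℚ := ∑ j ∈ range (N / 2 + 1), a N j

lemma ext' (f : ℕ → ℚ) (N M : ℕ) (h : N < 2 * M) :
    ∑ k ∈ range M, a N k * f k = ∑ k ∈ range (N / 2 + 1), a N k * f k := by
  symm
  apply sum_subset (range_subset_range.2 (by omega))
  intro k _ hk
  rw [a_zero, zero_mul]
  rw [mem_range] at hk; omega

lemma E_ext (N M : ℕ) (h : N < 2 * M) : ∑ k ∈ range M, a N k = E N := by
  simpa [E] using ext' (fun _ => 1) N M h

lemma E_rec (n : ℕ) : 3 * ((n : ℚ) + 2) * E (n + 2) - 3 * (2 * n + 3) * E (n + 1) - (n + 1) * E n = 0 := by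
  rw [← E_ext (n + 2) (n + 3) (by omega), ← E_ext (n + 1) (n + 3) (by omega),
    ← E_ext n (n + 3) (by omega), mul_sum, mul_sum, mul_sum, ← sum_sub_distrib, ← sum_sub_distrib]
  have := sum_range_sub (fun k => a (n + 2) k * (-12 * (k : ℚ) ^ 2 / (n + 2))) (n + 3)
  rw [a_zero (n + 2) (n + 3) (by omega)] at this
  simp only [Nat.cast_zero, ne_eq, OfNat.ofNat_ne_zero, not_false_eq_true, zero_pow, zero_div,
    mul_zero, zero_mul, sub_zero] at this
  rw [← this]
  refine sum_congr rfl fun k _ => ?_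
  rw [a_down n k, a_down (n + 1) k, a_up]
  push_cast
  field_simp
  ring

def F (N : ℕ) : ℚ := ∑ j ∈ range (N / 2 + 1), a N j * (1 / (j + 1))

lemma F_eq (n : ℕ) : 2 * ((n : ℚ) + 1) * F n = 3 * (E (n + 2) - E (n + 1)) := by
  rw [F, ← ext' _ n (n + 2) (by omega), ← E_ext (n + 2) (n + 3) (by omega),
    ← E_ext (n + 1) (n + 3) (by omega), ← sum_sub_distrib, sum_range_succ' _ (n + 2), mul_sum]
  have : a (n + 2) 0 - a (n + 1) 0 = 0 := by simp [a]
  rw [this, add_zero, mul_sum]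
  refine sum_congr rfl fun k _ => ?_
  rw [a_down (n + 1) (k + 1), a_up (n + 1 + 1) k, a_down n k, a_down (n + 1) k]
  push_cast
  field_simp
  ring

lemma E0 : E 0 = 1 := by simp [E, a]
lemma E1 : E 1 = 1 := by simp [E, a]

theorem S_eq (n : ℕ) : ∑ k ∈ range (n + 1), (-3 : ℚ) ^ k * E k * F k =
    (-3) ^ (n + 1) * ((n : ℚ) + 1) / (2 * (n + 2)) * ((n + 2) * E (n + 1) ^ 2 -
      (2 * n + 3) * E (n + 1) * E n - (n + 1) * E n ^ 2 / 3) := by
  induction n with
  | zero => simp [E0, E1, F, a]; norm_num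
  | succ n ih =>
    rw [sum_range_succ, ih]
    have f := F_eq (n + 1)
    have r1 := E_rec n
    have r2 := E_rec (n + 1)
    push_cast at f r2 ⊢
    have e0 : E n = (3 * ((n : ℚ) + 2) * E (n + 2) - 3 * (2 * n + 3) * E (n + 1)) / (n + 1) := by
      field_simp; linear_combination -r1
    have e1 : E (n + 1 + 2) = (3 * (2 * ((n : ℚ) + 1) + 3) * E (n + 1 + 1) + (n + 1 + 1) * E (n + 1)) /
        (3 * ((n : ℚ) + 1 + 2)) := by
      field_simp; linear_combination r2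
    have e2 : F (n + 1) = 3 * (E (n + 1 + 2) - E (n + 1 + 1)) / (2 * ((n : ℚ) + 1 + 1)) := by
      field_simp; linear_combination f
    rw [e2, e1, e0]
    field_simp
    ring

/-! ### squares of binomials -/

noncomputable def e (s : ℂ) (N k : ℕ) : ℂ := (N.choose k : ℂ) ^ 2 * s ^ k

noncomputable def σ (s : ℂ) (N : ℕ) : ℂ := ∑ k ∈ range (N + 1), e s N k

lemma np (n : ℕ) : (n : ℂ) + 1 ≠ 0 := by exact_mod_cast Nat.succ_ne_zero n
lemma np2 (n : ℕ) : (n : ℂ) + 1 + 1 ≠ 0 := by exact_mod_cast Nat.succ_ne_zero (n + 1)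

lemma e_down (s : ℂ) (N k : ℕ) : e s N k = e s (N + 1) k * (((N : ℂ) + 1 - k) / (N + 1)) ^ 2 := by
  unfold e
  have h : (N.choose k : ℂ) * (N + 1) = ((N + 1).choose k : ℂ) * ((N : ℂ) + 1 - k) := by
    exact_mod_cast congrArg (Rat.cast : ℚ → ℂ) (ch1 N k)
  have := np N
  have h' : (N.choose k : ℂ) = ((N + 1).choose k : ℂ) * (((N : ℂ) + 1 - k) / (N + 1)) := by
    field_simp; exact h
  rw [h']; ring

lemma e_up (s : ℂ) (N k : ℕ) : e s N (k + 1) = e s N k * (s * (((N : ℂ) - k) / (k + 1)) ^ 2) := by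
  unfold e
  have h : (N.choose (k + 1) : ℂ) * (k + 1) = (N.choose k : ℂ) * ((N : ℂ) - k) := by
    exact_mod_cast congrArg (Rat.cast : ℚ → ℂ) (ch2 N k)
  have := np k
  have h' : (N.choose (k + 1) : ℂ) = (N.choose k : ℂ) * (((N : ℂ) - k) / (k + 1)) := by
    field_simp; exact h
  rw [h']; ring

lemma e_zero (s : ℂ) (N k : ℕ) (h : N < k) : e s N k = 0 := by
  unfold e; rw [Nat.choose_eq_zero_of_lt h]; simp

lemma σ_ext (s : ℂ) (N M : ℕ) (h : N < M) : ∑ k ∈ range M, e s N k = σ s N := by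
  symm
  apply sum_subset (range_subset_range.2 (by omega))
  intro k _ hk
  apply e_zero
  rw [mem_range] at hk; omega

lemma σ_rec (s : ℂ) (n : ℕ) : ((n : ℂ) + 2) * σ s (n + 2) - (2 * n + 3) * (1 + s) * σ s (n + 1) +
    (n + 1) * (1 - s) ^ 2 * σ s n = 0 := by
  rw [← σ_ext s (n + 2) (n + 3) (by omega), ← σ_ext s (n + 1) (n + 3) (by omega),
    ← σ_ext s n (n + 3) (by omega), mul_sum, mul_sum, mul_sum, ← sum_sub_distrib, ← sum_add_distrib]
  have := sum_range_sub (fun k => e s (n + 2) k * ((k : ℂ) ^ 2 * ((n + 2 - k) ^ 2 * s -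
    ((n + 2) ^ 2 + 3 * (n + 2) * (n + 1) - 2 * (2 * n + 3) * k + k ^ 2)) / ((n + 1 + 1) ^ 2 * (n + 1)))) (n + 3)
  rw [e_zero s (n + 2) (n + 3) (by omega)] at this
  simp only [Nat.cast_zero, ne_eq, OfNat.ofNat_ne_zero, not_false_eq_true, zero_pow, zero_div,
    mul_zero, zero_mul, sub_zero] at this
  rw [← this]
  refine sum_congr rfl fun k _ => ?_
  rw [e_down s n k, e_down s (n + 1) k, e_up]
  have := np n
  have := np2 n
  have := np k
  push_cast
  field_simp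
  ring

lemma U_eq (s : ℂ) (n : ℕ) : ∑ k ∈ range (n + 2), (2 * (k : ℂ) - (n + 1)) * e s (n + 1) k =
    ((n : ℂ) + 1) * (s - 1) * σ s n := by
  rw [← σ_ext s n (n + 2) (by omega), mul_sum, ← sub_eq_zero, ← sum_sub_distrib]
  have := sum_range_sub (fun k => e s (n + 1) k * (-(k : ℂ) ^ 2 / (n + 1))) (n + 2)
  rw [e_zero s (n + 1) (n + 2) (by omega)] at this
  simp only [Nat.cast_zero, ne_eq, OfNat.ofNat_ne_zero, not_false_eq_true, zero_pow, zero_div,
    mul_zero, zero_mul, sub_zero, neg_zero] at this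
  rw [← this]
  refine sum_congr rfl fun k _ => ?_
  rw [e_down s n k, e_up]
  have := np n
  have := np k
  push_cast
  field_simp
  ring

lemma σ_E (s : ℂ) (hs : s ^ 2 = s - 1) (n : ℕ) : σ s n = (1 + s) ^ n * (E n : ℂ) := by
  induction n using Nat.twoStepInduction with
  | zero => simp [σ, e, E0]
  | one => simp [σ, e, E1, sum_range_succ]
  | more n h0 h1 =>
    have a := σ_rec s n
    have b : 3 * ((n : ℂ) + 2) * (E (n + 2) : ℂ) - 3 * (2 * n + 3) * (E (n + 1) : ℂ) -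
        (n + 1) * (E n : ℂ) = 0 := by exact_mod_cast congrArg (Rat.cast : ℚ → ℂ) (E_rec n)
    rw [h0, h1] at a
    have hn : (n : ℂ) + 2 ≠ 0 := by exact_mod_cast Nat.succ_ne_zero (n + 1)
    apply mul_left_cancel₀ hn
    linear_combination a - (1 + s) ^ n * s * b + (1 + s) ^ n * ((2 * n + 3) * (E (n + 1) : ℂ) -
      (n + 1) * (E n : ℂ) - (n + 2) * (E (n + 2) : ℂ)) * hs

/-- the logarithmic binomial identity -/
lemma I_eq (t : ℂ) (n : ℕ) : ∑ j ∈ range n, (n.choose (j + 1) : ℂ) * (-t) ^ (j + 1) / (j + 1) =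
    ∑ j ∈ range n, ((1 - t) ^ (j + 1) - 1) / (j + 1) := by
  induction n with
  | zero => simp
  | succ n ih =>
    rw [sum_range_succ (fun j => ((1 - t) ^ (j + 1) - 1) / ((j : ℂ) + 1)) n, ← ih]
    have b := add_pow (-t) 1 (n + 1)
    rw [sum_range_succ'] at b
    have e1 : ∑ j ∈ range n, (n.choose (j + 1) : ℂ) * (-t) ^ (j + 1) / (j + 1) =
        ∑ j ∈ range (n + 1), (n.choose (j + 1) : ℂ) * (-t) ^ (j + 1) / (j + 1) := by
      rw [sum_range_succ, Nat.choose_succ_self]; simp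
    have e2 : ((1 - t) ^ (n + 1) - 1) / ((n : ℂ) + 1) =
        ∑ j ∈ range (n + 1), (n.choose j : ℂ) * (-t) ^ (j + 1) / (j + 1) := by
      rw [show 1 - t = -t + 1 by ring, b]
      simp only [one_pow, mul_one, pow_zero, Nat.choose_zero_right, Nat.cast_one, add_sub_cancel_right]
      rw [sum_div]
      refine sum_congr rfl fun j _ => ?_
      have h : ((n + 1).choose (j + 1) : ℂ) * (j + 1) = (n.choose j : ℂ) * ((n : ℂ) + 1) := by
        exact_mod_cast congrArg (Rat.cast : ℚ → ℂ) (ch3 n j)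
      have := np n
      have := np j
      field_simp
      linear_combination (-t) ^ (j + 1) * h
    rw [e1, e2, ← sum_add_distrib]
    refine sum_congr rfl fun j _ => ?_
    rw [Nat.choose_succ_succ' n j]
    push_cast; ring

end Pool.Agent.H.MP_fcf7f4_nt
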