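import Mathlib
import Pool.Agent.H.MP_fcf7f4_nt.A
import Pool.Agent.H.MP_9b2749_nt.A

namespace Pool.Agent.H.MP_fcf7f4_nt

open Finset Nat Pool.Agent.H.MP_4af00a_nt

noncomputable def ζ : ℂ := ⟨1 / 2, Real.sqrt 3 / 2⟩

lemma hζ : ζ ^ 2 = ζ - 1 := by
  have h : Real.sqrt 3 * Real.sqrt 3 = 3 := Real.mul_self_sqrt (by norm_num)
  apply Complex.ext
  · simp [ζ, pow_two]; nlinarith
  · simp [ζ, pow_two]; ring

variable {p : ℕ} (hp : p.Prime)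

def SS : Subring ℂ where
  carrier := {z | ∃ a ∈ R p hp, ∃ b ∈ R p hp, z = (a : ℂ) + (b : ℂ) * ζ}
  mul_mem' := by
    rintro _ _ ⟨a, ha, b, hb, rfl⟩ ⟨c, hc, d, hd, rfl⟩
    refine ⟨a * c - b * d, sub_mem (mul_mem ha hc) (mul_mem hb hd), a * d + b * c + b * d,
      add_mem (add_mem (mul_mem ha hd) (mul_mem hb hc)) (mul_mem hb hd), ?_⟩
    push_cast
    linear_combination ((b : ℂ) * d) * hζ
  one_mem' := ⟨1, one_mem _, 0, zero_mem _, by simp⟩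
  add_mem' := by
    rintro _ _ ⟨a, ha, b, hb, rfl⟩ ⟨c, hc, d, hd, rfl⟩
    exact ⟨a + c, add_mem ha hc, b + d, add_mem hb hd, by push_cast; ring⟩
  zero_mem' := ⟨0, zero_mem _, 0, zero_mem _, by simp⟩
  neg_mem' := by
    rintro _ ⟨a, ha, b, hb, rfl⟩
    exact ⟨-a, neg_mem ha, -b, neg_mem hb, by push_cast; ring⟩

variable {hp}

lemma ζ_mem : ζ ∈ SS hp := ⟨0, zero_mem _, 1, one_mem _, by simp⟩
lemma r_mem {a : ℚ} (ha : a ∈ R p hp) : (a : ℂ) ∈ SS hp := ⟨a, ha, 0, zero_mem _, by simp⟩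
lemma n_mem (m : ℕ) : (m : ℂ) ∈ SS hp := natCast_mem _ m
lemma i_mem (j : ℕ) (h : j + 1 < p) : ((j : ℂ) + 1)⁻¹ ∈ SS hp := by
  have := r_mem (inv_lt hp (j + 1) (by omega) h (((j : ℚ) + 1)) (by simp))
  push_cast at this; exact this

lemma toM (e : ℕ) (x : ℚ) (r : ℂ) (hr : r ∈ SS hp) (h : (x : ℂ) = (p : ℂ) ^ e * r) : M hp e x := by
  obtain ⟨a, ha, b, hb, rfl⟩ := hr
  have hp0 : (p : ℝ) ^ e ≠ 0 := pow_ne_zero _ (by exact_mod_cast hp.ne_zero)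
  have h1 := congrArg Complex.im h
  have e1 : (p : ℂ) ^ e = (((p : ℝ) ^ e : ℝ) : ℂ) := by push_cast; rfl
  rw [e1] at h1
  rw [Complex.im_ofReal_mul] at h1
  simp only [Complex.ratCast_im, Complex.add_im,
    Complex.mul_im, Complex.ratCast_re, zero_mul, add_zero, zero_add, ζ] at h1
  have h3 : Real.sqrt 3 ≠ 0 := by positivity
  have hb0 : (b : ℝ) = 0 := by
    rcases _root_.mul_eq_zero.1 h1.symm with h | h
    · exact absurd h hp0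
    · rcases _root_.mul_eq_zero.1 h with h | h
      · exact h
      · exact absurd h (by positivity)
  obtain rfl : b = 0 := by exact_mod_cast hb0
  refine ⟨a, ha, ?_⟩
  simp only [Rat.cast_zero, zero_mul, add_zero] at h
  exact_mod_cast h

lemma chp (n j : ℕ) : ((n + 1).choose (j + 1) : ℂ) =
    ((n + 1 : ℕ) : ℂ) * (-1) ^ j * (A (n + 1) j : ℂ) * ((j : ℂ) + 1)⁻¹ := by
  have h : ((n + 1).choose (j + 1) : ℂ) * (j + 1) = (n.choose j : ℂ) * ((n : ℂ) + 1) := by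
    exact_mod_cast congrArg (Rat.cast : ℚ → ℂ) (ch3 n j)
  have := np j
  rw [A_eq]
  push_cast
  have e : ((-1 : ℂ)) ^ j * (-1) ^ j = 1 := by rw [← mul_pow]; simp
  field_simp
  linear_combination h - (n.choose j : ℂ) * ((n : ℂ) + 1) * e

theorem key (h3 : 3 < p) (n : ℕ) (hn : p = n + 1) (hst : ζ ^ p + (1 - ζ) ^ p = 1) :
    ∃ X ∈ SS hp, ∃ r1 ∈ SS hp, ∃ r2 ∈ SS hp,
      σ ζ p = 1 + ζ ^ p + (p : ℂ) ^ 2 * X + (p : ℂ) ^ 3 * r1 ∧
      (ζ - 1) * σ ζ n = ζ ^ p - 1 + (p : ℂ) ^ 2 * (2 * (1 - ζ) ^ p - 1) * X + (p : ℂ) ^ 3 * r2 := by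
  have hodd : Odd p := hp.odd_of_ne_two (by omega)
  have hp0 : (p : ℂ) ≠ 0 := by exact_mod_cast hp.ne_zero
  have hpc : (n : ℂ) + 1 = p := by rw [hn]; push_cast; ring
  have hA : ∀ j, ∃ a : ℂ, j < n → a ∈ SS hp ∧ (A p j : ℂ) = 1 + p * a := by
    intro j
    by_cases hj : j < n
    · obtain ⟨⟨a, ha, e⟩, -, -⟩ := AB (hp := hp) h3 j (by omega)
      refine ⟨a, fun _ => ⟨r_mem ha, ?_⟩⟩
      have : A p j = 1 + p * a := by linear_combination e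
      rw [this]; push_cast; rfl
    · exact ⟨0, fun h => absurd h hj⟩
  choose a ha using hA
  have hc : ∀ j ∈ range n, (p.choose (j + 1) : ℂ) = p * (-1) ^ j * (1 + p * a j) * ((j : ℂ) + 1)⁻¹ := by
    intro j hj
    rw [← (ha j (mem_range.1 hj)).2, hn, chp]
  have hsq : ∀ j : ℕ, ((-1 : ℂ) ^ j) ^ 2 = 1 := fun j => by rw [← pow_mul, mul_comm, pow_mul]; simp
  have hs := ζ_mem (hp := hp)
  have ht : 1 - ζ ∈ SS hp := sub_mem (one_mem _) hs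
  have hP := n_mem (hp := hp) p
  have c2 : (2 : ℂ) ∈ SS hp := n_mem 2
  have mem : ∀ (f : ℕ → ℂ), (∀ j, j < n → f j ∈ SS hp) → ∑ j ∈ range n, f j ∈ SS hp :=
    fun f h => sum_mem fun j hj => h j (mem_range.1 hj)
  have hu : ∀ j, j < n → ((j : ℂ) + 1)⁻¹ ∈ SS hp := fun j hj => i_mem j (by omega)
  -- the basic sums
  set X := ∑ j ∈ range n, ζ ^ (j + 1) * ((j : ℂ) + 1)⁻¹ ^ 2 with hX
  set Xt := ∑ j ∈ range n, (1 - ζ) ^ (j + 1) * ((j : ℂ) + 1)⁻¹ ^ 2 with hXt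
  set X1 := ∑ j ∈ range n, ζ ^ (j + 1) * ((j : ℂ) + 1)⁻¹ with hX1
  set Xa := ∑ j ∈ range n, a j * ζ ^ (j + 1) * ((j : ℂ) + 1)⁻¹ with hXa
  set H := ∑ j ∈ range n, ((j : ℂ) + 1)⁻¹ with hH
  set Y1 := ∑ j ∈ range n, (2 * a j + p * a j ^ 2) * ζ ^ (j + 1) * ((j : ℂ) + 1)⁻¹ ^ 2 with hY1
  set Y2 := ∑ j ∈ range n, a j ^ 2 * ζ ^ (j + 1) * ((j : ℂ) + 1)⁻¹ with hY2
  set Y3 := ∑ j ∈ range n, a j * (1 - ζ) ^ (j + 1) * ((j : ℂ) + 1)⁻¹ ^ 2 with hY3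
  set Y4 := ∑ j ∈ range n, a j * ((j : ℂ) + 1)⁻¹ ^ 2 with hY4
  have mX : X ∈ SS hp := mem _ fun j hj => mul_mem (pow_mem hs _) (pow_mem (hu j hj) _)
  have mY1 : Y1 ∈ SS hp := mem _ fun j hj => mul_mem (mul_mem (add_mem (mul_mem c2 (ha j hj).1)
    (mul_mem hP (pow_mem (ha j hj).1 _))) (pow_mem hs _)) (pow_mem (hu j hj) _)
  have mY2 : Y2 ∈ SS hp := mem _ fun j hj =>
    mul_mem (mul_mem (pow_mem (ha j hj).1 _) (pow_mem hs _)) (hu j hj)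
  have mY3 : Y3 ∈ SS hp := mem _ fun j hj =>
    mul_mem (mul_mem (ha j hj).1 (pow_mem ht _)) (pow_mem (hu j hj) _)
  have mY4 : Y4 ∈ SS hp := mem _ fun j hj => mul_mem (ha j hj).1 (pow_mem (hu j hj) _)
  -- sigma p
  have e1 : σ ζ p = 1 + ζ ^ p + (p : ℂ) ^ 2 * X + (p : ℂ) ^ 3 * Y1 := by
    rw [σ, sum_range_succ, show range p = range (n + 1) by rw [hn], sum_range_succ']
    have : ∑ j ∈ range n, e ζ p (j + 1) = (p : ℂ) ^ 2 * X + (p : ℂ) ^ 3 * Y1 := by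
      rw [hX, hY1, mul_sum, mul_sum, ← sum_add_distrib]
      refine sum_congr rfl fun j hj => ?_
      rw [e, hc j hj]
      linear_combination ((p : ℂ) ^ 2 * (1 + p * a j) ^ 2 * ((j : ℂ) + 1)⁻¹ ^ 2 * ζ ^ (j + 1)) * hsq j
    rw [this]; simp [e]; ring
  have e2 : (ζ - 1) * σ ζ n = ζ ^ p - 1 + 2 * p * X1 + 4 * (p : ℂ) ^ 2 * Xa - (p : ℂ) ^ 2 * X +
      (p : ℂ) ^ 3 * (2 * Y2 - Y1) := by
    have u := U_eq ζ n
    rw [sum_range_succ, sum_range_succ', hpc, ← hn] at u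
    have : ∑ j ∈ range n, (2 * ((j + 1 : ℕ) : ℂ) - p) * e ζ p (j + 1) = p * (2 * p * X1 +
        4 * (p : ℂ) ^ 2 * Xa - (p : ℂ) ^ 2 * X + (p : ℂ) ^ 3 * (2 * Y2 - Y1)) := by
      rw [hX, hY1, hY2, hX1, hXa]
      simp only [mul_sum, ← sum_add_distrib, ← sum_sub_distrib]
      refine sum_congr rfl fun j hj => ?_
      rw [e, hc j hj, mul_pow, mul_pow, mul_pow, hsq]
      have := np j
      push_cast
      field_simp
      ring
    rw [this] at u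
    simp only [e, Nat.cast_zero, Nat.choose_zero_right, Nat.choose_self, Nat.cast_one] at u
    apply mul_left_cancel₀ hp0
    linear_combination -u
  have e3 : (1 - ζ) ^ p = 1 - ζ ^ p - p * X1 - (p : ℂ) ^ 2 * Xa := by
    have b := add_pow (-ζ) 1 p
    rw [sum_range_succ, show range p = range (n + 1) by rw [hn], sum_range_succ'] at b
    have : ∑ j ∈ range n, (-ζ) ^ (j + 1) * 1 ^ (p - (j + 1)) * (p.choose (j + 1) : ℂ) =
        - (p * X1) - (p : ℂ) ^ 2 * Xa := by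
      rw [hX1, hXa]
      simp only [mul_sum, ← sum_neg_distrib, ← sum_sub_distrib]
      refine sum_congr rfl fun j hj => ?_
      rw [hc j hj, neg_pow ζ, pow_succ (-1 : ℂ)]
      linear_combination (-(p : ℂ) * (1 + p * a j) * ((j : ℂ) + 1)⁻¹ * ζ ^ (j + 1)) * hsq j
    rw [this, hodd.neg_pow] at b
    simp only [pow_zero, one_pow, Nat.choose_zero_right, Nat.choose_self, Nat.cast_one] at b
    linear_combination b
  have e4 : ∀ t : ℂ, - (p : ℂ) ^ 2 * (∑ j ∈ range n, t ^ (j + 1) * ((j : ℂ) + 1)⁻¹ ^ 2) -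
      (p : ℂ) ^ 3 * (∑ j ∈ range n, a j * t ^ (j + 1) * ((j : ℂ) + 1)⁻¹ ^ 2) - t ^ p =
      p * (∑ j ∈ range n, (1 - t) ^ (j + 1) * ((j : ℂ) + 1)⁻¹) - p * H + ((1 - t) ^ p - 1) := by
    intro t
    have b := I_eq t p
    rw [show range p = range (n + 1) by rw [hn], sum_range_succ, sum_range_succ, hpc, ← hn,
      hodd.neg_pow, Nat.choose_self] at b
    have s1 : ∑ j ∈ range n, (p.choose (j + 1) : ℂ) * (-t) ^ (j + 1) / (j + 1) =
        - (p : ℂ) * (∑ j ∈ range n, t ^ (j + 1) * ((j : ℂ) + 1)⁻¹ ^ 2) -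
        (p : ℂ) ^ 2 * (∑ j ∈ range n, a j * t ^ (j + 1) * ((j : ℂ) + 1)⁻¹ ^ 2) := by
      simp only [mul_sum, ← sum_sub_distrib]
      refine sum_congr rfl fun j hj => ?_
      rw [hc j hj, neg_pow t, pow_succ (-1 : ℂ), div_eq_mul_inv]
      linear_combination (-(p : ℂ) * (1 + p * a j) * ((j : ℂ) + 1)⁻¹ ^ 2 * t ^ (j + 1)) * hsq j
    have s2 : ∑ j ∈ range n, ((1 - t) ^ (j + 1) - 1) / ((j : ℂ) + 1) =
        (∑ j ∈ range n, (1 - t) ^ (j + 1) * ((j : ℂ) + 1)⁻¹) - H := by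
      rw [hH, ← sum_sub_distrib]
      exact sum_congr rfl fun j _ => by ring
    rw [s1, s2] at b
    generalize (∑ j ∈ range n, t ^ (j + 1) * ((j : ℂ) + 1)⁻¹ ^ 2) = u1 at *
    generalize (∑ j ∈ range n, a j * t ^ (j + 1) * ((j : ℂ) + 1)⁻¹ ^ 2) = u2 at *
    generalize (∑ j ∈ range n, (1 - t) ^ (j + 1) * ((j : ℂ) + 1)⁻¹) = u3 at *
    field_simp at b
    push_cast at b
    linear_combination b
  have e5 := e4 (1 - ζ)
  have e6 := e4 1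
  simp only [sub_sub_cancel] at e5
  rw [← hXt, ← hX1, ← hY3] at e5
  simp only [one_pow, one_mul, mul_one, sub_self, ne_eq, Nat.add_eq_zero_iff, one_ne_zero, and_false,
    not_false_eq_true, zero_pow, zero_mul, sum_const_zero, mul_zero, zero_pow hp.ne_zero] at e6
  rw [← hY4] at e6
  obtain ⟨w, hw, e7⟩ := Pool.Agent.H.MP_9b2749_nt.h_refl (hp := hp) h3 n 0 (by omega)
  have e8 : ∑ j ∈ range n, ((j : ℂ) + 1)⁻¹ ^ 2 = p * (w : ℂ) := by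
    have := congrArg (Rat.cast : ℚ → ℂ) e7
    simp only [Pool.Agent.H.MP_9b2749_nt.h, range_zero, sum_empty, add_zero, pow_one] at this
    push_cast at this
    exact this
  rw [e8] at e6
  -- reflection
  have hR : ∀ j, ∃ r : ℂ, j < n → r ∈ SS hp ∧
      (((n - 1 - j : ℕ) : ℂ) + 1)⁻¹ ^ 2 = ((j : ℂ) + 1)⁻¹ ^ 2 + p * r := by
    intro j
    by_cases hj : j < n
    · obtain ⟨r, hr, e⟩ := refl_sq (hp := hp) (j + 1) (by omega) (by omega)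
      refine ⟨r, fun _ => ⟨r_mem hr, ?_⟩⟩
      have := congrArg (Rat.cast : ℚ → ℂ) e
      push_cast at this
      have e' : ((n - 1 - j : ℕ) : ℂ) + 1 = p - (j + 1) := by
        have : p = (n - 1 - j) + 1 + (j + 1) := by omega
        conv_rhs => rw [this]
        push_cast; ring
      rw [e']; linear_combination this
    · exact ⟨0, fun h => absurd h hj⟩
  choose r hr using hR
  set Y5 := ∑ j ∈ range n, ζ ^ (j + 1) * r j with hY5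
  have mY5 : Y5 ∈ SS hp := mem _ fun j hj => mul_mem (pow_mem hs _) (hr j hj).1
  have e9 : Xt = (1 - ζ) ^ p * (X + p * Y5) := by
    rw [hXt, ← sum_range_reflect, hX, hY5, mul_sum, ← sum_add_distrib, mul_sum]
    refine sum_congr rfl fun j hj => ?_
    have hj' := mem_range.1 hj
    rw [(hr j hj').2]
    have : (1 - ζ) ^ p * ζ ^ (j + 1) = (1 - ζ) ^ (n - 1 - j + 1) := by
      conv_lhs => rw [show p = (n - 1 - j + 1) + (j + 1) by omega]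
      rw [pow_add, mul_assoc, ← mul_pow, show (1 - ζ) * ζ = 1 by linear_combination -hζ]; simp
    rw [← this]; ring
  refine ⟨X, mX, Y1, mY1, 2 * Y2 - Y1 + 2 * (1 - ζ) ^ p * Y5 + 2 * Y3 - 2 * (w + Y4), ?_, e1, ?_⟩
  · exact sub_mem (add_mem (add_mem (sub_mem (mul_mem c2 mY2) mY1) (mul_mem (mul_mem c2 (pow_mem ht _)) mY5))
      (mul_mem c2 mY3)) (mul_mem c2 (add_mem (r_mem hw) mY4))
  · rw [e2]
    rw [e9] at e5
    linear_combination 4 * e3 + 2 * e5 - 2 * e6 - 2 * hst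

lemma z3 : ζ ^ 3 = -1 := by linear_combination (ζ + 1) * hζ
lemma z6 (k : ℕ) : ζ ^ (6 * k) = 1 := by
  rw [pow_mul, show ζ ^ 6 = (ζ ^ 3) ^ 2 by ring, z3]; simp
lemma t6 (k : ℕ) : (1 - ζ) ^ (6 * k) = 1 := by
  have : (1 - ζ) ^ 3 = -1 := by linear_combination (2 - ζ) * hζ
  rw [pow_mul, show (1 - ζ) ^ 6 = ((1 - ζ) ^ 3) ^ 2 by ring, this]; simp

lemma S_C (n : ℕ) (hodd : Odd (n + 1)) :
    ((∑ k ∈ range (n + 1), (-3 : ℚ) ^ k * E k * F k : ℚ) : ℂ) =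
    -((n : ℂ) + 1) * (1 - ζ) ^ (n + 1) * 2⁻¹ * ((n : ℂ) + 1 + 1)⁻¹ * ((n + 2) * σ ζ (n + 1) ^ 2 -
      (2 * n + 3) * (1 + ζ) * σ ζ (n + 1) * σ ζ n - (n + 1) * ζ * σ ζ n ^ 2) := by
  rw [S_eq, σ_E ζ hζ, σ_E ζ hζ, hodd.neg_pow]
  have h1 : (1 - ζ) ^ (n + 1) * ((1 + ζ) ^ (n + 1)) ^ 2 = 3 ^ (n + 1) := by
    rw [← pow_mul, mul_comm (n + 1) 2, pow_mul, ← mul_pow]
    congr 1
    linear_combination (-ζ - 2) * hζ
  have h2 : (1 + ζ) ^ 2 = 3 * ζ := by linear_combination hζ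
  have := np2 n
  have e : (n : ℂ) + 2 = n + 1 + 1 := by ring
  push_cast
  rw [← h1, e, pow_succ (1 + ζ) n]
  generalize (1 + ζ) ^ n = u
  field_simp
  linear_combination (((n : ℂ) + 1) * (1 - ζ) ^ (n + 1) * u ^ 2 * (E n : ℂ) ^ 2) * h2

theorem main (h3 : 3 < p) :
    (p % 3 = 1 → M hp 3 (∑ k ∈ range p, (-3 : ℚ) ^ k * E k * F k - 2 * (p : ℚ) ^ 2)) ∧
    (p % 3 = 2 → M hp 4 (∑ k ∈ range p, (-3 : ℚ) ^ k * E k * F k - ((p : ℚ) ^ 3 - p ^ 2 - 3 * p))) := by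
  have hodd : Odd p := hp.odd_of_ne_two (by omega)
  obtain ⟨n, hn⟩ : ∃ n, p = n + 1 := ⟨p - 1, by omega⟩
  have hpc : (n : ℂ) = p - 1 := by rw [hn]; push_cast; ring
  have hS := S_C n (hn ▸ hodd)
  rw [← hn, hpc] at hS
  have hs := ζ_mem (hp := hp)
  have hP := n_mem (hp := hp) p
  have o := one_mem (SS hp)
  have c2 : (2 : ℂ) ∈ SS hp := n_mem 2
  have c3 : (3 : ℂ) ∈ SS hp := n_mem 3
  have c4 : (4 : ℂ) ∈ SS hp := n_mem 4
  have c6 : (6 : ℂ) ∈ SS hp := n_mem 6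
  have h2 : (2 : ℂ)⁻¹ ∈ SS hp := by
    have := r_mem (inv_lt hp 2 (by omega) (by omega) (2 : ℚ) (by simp))
    push_cast at this; exact this
  have hv : ((p : ℂ) + 1)⁻¹ ∈ SS hp := by
    have := r_mem (inv_mem' hp (p + 1) (by
      intro h
      have := (Nat.dvd_add_right (dvd_refl p)).1 h
      exact hp.ne_one (Nat.dvd_one.1 this)))
    push_cast at this; exact this
  have hv0 := np p
  have hinv : ∀ {x y : ℂ}, (ζ - 1) * x = y → x = -ζ * y := by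
    intro x y h; rw [← h]; linear_combination x * hζ
  obtain ⟨j, hj⟩ := hodd
  constructor
  · intro h
    obtain ⟨k, hk⟩ : ∃ k, p = 6 * k + 1 := ⟨p / 6, by omega⟩
    have z1 : ζ ^ p = ζ := by rw [hk, pow_succ, z6, one_mul]
    have z2 : (1 - ζ) ^ p = 1 - ζ := by rw [hk, pow_succ, t6, one_mul]
    obtain ⟨X, mX, r1, m1, r2, m2, e1, e2⟩ := key (hp := hp) h3 n hn (by rw [z1, z2]; ring)
    rw [z1] at e1
    rw [z1, z2] at e2
    obtain ⟨U, mU, eU⟩ : ∃ U ∈ SS hp, σ ζ p = 1 + ζ + (p : ℂ) ^ 2 * U :=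
      ⟨X + p * r1, add_mem mX (mul_mem hP m1), by rw [e1]; ring⟩
    obtain ⟨V, mV, eV⟩ : ∃ V ∈ SS hp, σ ζ n = 1 + (p : ℂ) ^ 2 * V :=
      ⟨-ζ * ((1 - 2 * ζ) * X + p * r2), mul_mem (neg_mem hs) (add_mem (mul_mem (sub_mem o
        (mul_mem c2 hs)) mX) (mul_mem hP m2)), by
          rw [hinv e2]; linear_combination (-1 : ℂ) * hζ⟩
    refine toM 3 _ (((p : ℂ) + 1)⁻¹ * (-2 - (1 - ζ) * 2⁻¹ * ((p + 1) * (2 * (1 + ζ) * U + p ^ 2 * U ^ 2) -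
      (2 * p + 1) * (1 + ζ) * ((1 + ζ) * V + U + p ^ 2 * U * V) - p * ζ * (2 * V + p ^ 2 * V ^ 2)))) ?_ ?_
    · repeat' first
        | assumption
        | apply add_mem
        | apply sub_mem
        | apply mul_mem
        | apply neg_mem
        | apply pow_mem
    · rw [Rat.cast_sub, hS, z2, eU, eV, show (p : ℂ) - 1 + 1 + 1 = p + 1 by ring]
      push_cast
      field_simp
      linear_combination (-(p : ℂ) ^ 2 * (ζ + 3)) * hζ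
  · intro h
    obtain ⟨k, hk⟩ : ∃ k, p = 6 * k + 5 := ⟨p / 6, by omega⟩
    have z1 : ζ ^ p = 1 - ζ := by
      rw [hk, pow_add, z6, one_mul]; linear_combination (ζ ^ 3 + ζ ^ 2 - 1) * hζ
    have z2 : (1 - ζ) ^ p = ζ := by
      rw [hk, pow_add, t6, one_mul]; linear_combination (-ζ ^ 3 + 4 * ζ ^ 2 - 5 * ζ + 1) * hζ
    obtain ⟨X, mX, r1, m1, r2, m2, e1, e2⟩ := key (hp := hp) h3 n hn (by rw [z1, z2]; ring)
    rw [z1] at e1
    rw [z1, z2] at e2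
    obtain ⟨U, mU, eU⟩ : ∃ U ∈ SS hp, U = X + p * r1 := ⟨_, add_mem mX (mul_mem hP m1), rfl⟩
    obtain ⟨V, mV, eV⟩ : ∃ V ∈ SS hp, V = (2 - ζ) * X - p * ζ * r2 :=
      ⟨_, sub_mem (mul_mem (sub_mem c2 hs) mX) (mul_mem (mul_mem hP hs) m2), rfl⟩
    have f1 : σ ζ p = 2 - ζ + (p : ℂ) ^ 2 * U := by rw [e1, eU]; ring
    have f2 : σ ζ n = ζ - 1 + (p : ℂ) ^ 2 * V := by
      rw [hinv e2, eV]; linear_combination (1 - 2 * (p : ℂ) ^ 2 * X) * hζ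
    refine toM 4 _ (((p : ℂ) + 1)⁻¹ * (-1 - ζ * 2⁻¹ * (
      (2 * (2 - ζ) * U - 2 * (1 + ζ) * ((2 - ζ) * V + (ζ - 1) * U) - 2 * ζ * (ζ - 1) * V) +
      (2 * (2 - ζ) * r1 - (1 + ζ) * ((2 - ζ) * (-ζ * r2) + (ζ - 1) * r1)) +
      p * ((p + 1) * U ^ 2 - (2 * p + 1) * (1 + ζ) * U * V - p * ζ * V ^ 2)))) ?_ ?_
    · repeat' first
        | assumption
        | apply add_mem
        | apply sub_mem
        | apply mul_mem
        | apply neg_mem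
        | apply pow_mem
    · rw [Rat.cast_sub, hS, z2, f1, f2, show (p : ℂ) - 1 + 1 + 1 = p + 1 by ring]
      have g : 2 * (2 - ζ) * U - (1 + ζ) * ((2 - ζ) * V + (ζ - 1) * U) =
          p * (2 * (2 - ζ) * r1 - (1 + ζ) * ((2 - ζ) * (-ζ * r2) + (ζ - 1) * r1)) := by
        rw [eU, eV]; linear_combination (X * (1 - ζ)) * hζ
      push_cast
      field_simp
      linear_combination (-ζ * (p : ℂ) ^ 3) * g + ((p : ℂ) * (6 - ζ ^ 2) + (p : ℂ) ^ 2 * (8 - ζ ^ 2)) * hζ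

end Pool.Agent.H.MP_fcf7f4_nt
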